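import Pool.Agent.H176.DT.Stm2

/-!
# Project DT, part two (helper176): values and residues of the lifts
-/

set_option autoImplicit false
set_option linter.unusedVariables false
set_option linter.unusedSectionVars false

universe u

namespace Pool.Agent.H297.DT2

open Pool.Agent.W418.LU2 IsLocalRing Polynomial Pool.Agent.H176.DT

section lift

variable {E F : Type u} [Field E] [Field F] [Algebra E F] {V : ValuationSubring F} {θ : F}
  {ϕ : E[X]} {n : ℕ} {β : Fin n → E[X]} {M : Type u} [Field M] [Algebra E M]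
  {W : ValuationSubring M} {π : E[X] →ₐ[E] M} (hR : Rsd V θ ϕ W π)

/-- the representative of small degree -/
noncomputable def L (x : M) : E[X] := (hR.sur x).choose

lemma L_deg (x : M) : (L hR x).degree < ϕ.degree := (hR.sur x).choose_spec.1

lemma L_pi (x : M) : π (L hR x) = x := (hR.sur x).choose_spec.2

include hR in
lemma eq_of_pi {f g : E[X]} (hf : f.degree < ϕ.degree) (hg : g.degree < ϕ.degree)
    (h : π f = π g) : f = g := by
  have h1 : ϕ ∣ f - g := (hR.ker _).1 (by rw [map_sub, h, sub_self])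
  have h2 : (f - g).degree < ϕ.degree := lt_of_le_of_lt (degree_sub_le _ _) (max_lt hf hg)
  exact sub_eq_zero.1 (eq_zero_of_dvd_of_degree_lt h1 h2)

lemma L_of {f : E[X]} {x : M} (hf : f.degree < ϕ.degree) (h : π f = x) : L hR x = f :=
  eq_of_pi hR (L_deg hR _) hf ((L_pi hR _).trans h.symm)

/-- the lift -/
noncomputable def u (x : M) : F := aeval θ (L hR x)

lemma u_of {f : E[X]} {x : M} (hf : f.degree < ϕ.degree) (h : π f = x) :
    u hR x = aeval θ f := by rw [u, L_of hR hf h]

lemma u_add (x y : M) : u hR (x + y) = u hR x + u hR y := by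
  rw [u_of hR (f := L hR x + L hR y)
    (lt_of_le_of_lt (degree_add_le _ _) (max_lt (L_deg hR x) (L_deg hR y)))
    (by rw [map_add, L_pi, L_pi]), map_add]
  rfl

lemma u_neg (x : M) : u hR (-x) = -u hR x := by
  rw [u_of hR (f := -L hR x) (by rw [degree_neg]; exact L_deg hR x)
    (by rw [map_neg, L_pi]), map_neg]
  rfl

variable (hK : KP V θ ϕ β) (hθ : Transcendental E θ)

include hK in
lemma deg_pos : 0 < ϕ.degree := natDegree_pos_iff_degree_pos.1 hK.deg

include hK in
lemma u_alg (a : E) : u hR (algebraMap E M a) = algebraMap E F a := by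
  rw [u_of hR (f := C a) (lt_of_le_of_lt degree_C_le (deg_pos hK))
    (π.commutes a), aeval_C]

include hK in
lemma u_zero : u hR 0 = 0 := by
  have := u_alg hR hK 0
  rwa [map_zero, map_zero] at this

include hK in
lemma u_one : u hR 1 = 1 := by
  have := u_alg hR hK 1
  rwa [map_one, map_one] at this

lemma L_ne {x : M} (hx : x ≠ 0) : L hR x ≠ 0 := by
  intro h
  apply hx
  rw [← L_pi hR x, h, map_zero]

include hθ in
lemma u_ne {x : M} (hx : x ≠ 0) : u hR x ≠ 0 := fun h =>
  L_ne hR hx ((transcendental_iff.1 hθ) _ h)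

include hK in
lemma u_mul {x y : M} (hx : x ≠ 0) (hy : y ≠ 0) :
    V.valuation (u hR x * u hR y - u hR (x * y)) < V.valuation (u hR x * u hR y) := by
  have h1 := hK.key (L hR x) (L hR y) (L_deg hR x) (L_deg hR y) (L_ne hR hx) (L_ne hR hy)
  have h2 := modByMonic_add_div (L hR x * L hR y) ϕ
  have h3 : π ϕ = 0 := (hR.ker _).2 dvd_rfl
  have h4 : u hR (x * y) = aeval θ (L hR x * L hR y %ₘ ϕ) := by
    refine u_of hR (degree_modByMonic_lt _ hK.monic) ?_
    have h5 := congrArg π h2
    rw [map_add, map_mul, h3, zero_mul, add_zero, map_mul, L_pi, L_pi] at h5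
    exact h5
  have h6 : u hR x * u hR y - u hR (x * y) = aeval θ ((L hR x * L hR y /ₘ ϕ) * ϕ) := by
    rw [h4, u, u, ← map_mul, ← map_sub]
    congr 1
    conv_lhs => rw [← h2]
    rw [h2]
    have := h2
    linear_combination -h2
  have h7 : u hR x * u hR y = aeval θ (L hR x * L hR y) := by rw [map_mul]; rfl
  rw [h6, h7]
  exact h1

include hK in
lemma u_mul_eq (x y : M) :
    V.valuation (u hR (x * y)) = V.valuation (u hR x) * V.valuation (u hR y) := by
  by_cases hx : x = 0
  · rw [hx, zero_mul, u_zero hR hK, map_zero, zero_mul]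
  by_cases hy : y = 0
  · rw [hy, mul_zero, u_zero hR hK, map_zero, mul_zero]
  have h1 := u_mul hR hK hx hy
  rw [← map_mul]
  have h2 : u hR (x * y) = u hR x * u hR y - (u hR x * u hR y - u hR (x * y)) := by ring
  rw [h2]
  exact V.valuation.map_sub_eq_of_lt_left h1

/-- the valuation of the lift -/
noncomputable def nu : Valuation M V.ValueGroup where
  toFun x := V.valuation (u hR x)
  map_zero' := by rw [u_zero hR hK, map_zero]
  map_one' := by rw [u_one hR hK, map_one]
  map_mul' := u_mul_eq hR hK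
  map_add_le_max' x y := by
    rw [u_add]
    exact V.valuation.map_add _ _

lemma nu_apply (x : M) : nu hR hK x = V.valuation (u hR x) := rfl

lemma nu_le {x y : M} : W.valuation x ≤ W.valuation y ↔ nu hR hK x ≤ nu hR hK y := by
  have h1 := hR.val (L hR x) (L hR y) (L_deg hR x) (L_deg hR y)
  rw [L_pi, L_pi] at h1
  exact h1

lemma nu_lt {x y : M} : W.valuation x < W.valuation y ↔ nu hR hK x < nu hR hK y := by
  rw [← not_le, ← not_le, nu_le hR hK]

lemma nu_eq {x y : M} : W.valuation x = W.valuation y ↔ nu hR hK x = nu hR hK y := by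
  rw [le_antisymm_iff, le_antisymm_iff, nu_le hR hK, nu_le hR hK]

lemma nu_le_one {x : M} : W.valuation x ≤ 1 ↔ nu hR hK x ≤ 1 := by
  have := nu_le hR hK (x := x) (y := 1)
  rwa [map_one, map_one] at this

lemma nu_lt_one {x : M} : W.valuation x < 1 ↔ nu hR hK x < 1 := by
  have := nu_lt hR hK (x := x) (y := 1)
  rwa [map_one, map_one] at this

lemma nu_eq_one {x : M} : W.valuation x = 1 ↔ nu hR hK x = 1 := by
  have := nu_eq hR hK (x := x) (y := 1)
  rwa [map_one, map_one] at this

lemma nu_alg (a : E) : nu hR hK (algebraMap E M a) = V.valuation (algebraMap E F a) := by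
  rw [nu_apply, u_alg hR hK]

/-- `x` is the residue of `w` -/
def Cg (w : F) (x : M) : Prop :=
  V.valuation w ≤ 1 ∧ W.valuation x ≤ 1 ∧ V.valuation (w - u hR x) < 1

variable {w w' : F} {x x' : M}

include hK in
lemma Cg.u_le (h : Cg hR w x) : V.valuation (u hR x) ≤ 1 := (nu_le_one hR hK).1 h.2.1

lemma Cg.add (h : Cg hR w x) (h' : Cg hR w' x') : Cg hR (w + w') (x + x') := by
  refine ⟨(V.valuation.map_add _ _).trans (max_le h.1 h'.1),
    (W.valuation.map_add _ _).trans (max_le h.2.1 h'.2.1), ?_⟩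
  rw [u_add, show w + w' - (u hR x + u hR x') = (w - u hR x) + (w' - u hR x') by ring]
  exact lt_of_le_of_lt (V.valuation.map_add _ _) (max_lt h.2.2 h'.2.2)

lemma Cg.neg (h : Cg hR w x) : Cg hR (-w) (-x) := by
  refine ⟨by rw [Valuation.map_neg]; exact h.1, by rw [Valuation.map_neg]; exact h.2.1, ?_⟩
  rw [u_neg, show -w - -u hR x = -(w - u hR x) by ring, Valuation.map_neg]
  exact h.2.2

include hK in
lemma Cg.alg {a : E} (ha : algebraMap E F a ∈ V) :
    Cg hR (algebraMap E F a) (algebraMap E M a) := by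
  refine ⟨(V.valuation_le_one_iff _).2 ha, ?_, ?_⟩
  · rw [nu_le_one hR hK, nu_alg]
    exact (V.valuation_le_one_iff _).2 ha
  · rw [u_alg hR hK, sub_self, map_zero]
    exact zero_lt_one

include hK in
lemma Cg.zero : Cg hR (0 : F) (0 : M) := by
  have := Cg.alg hR hK (a := 0) (by rw [map_zero]; exact V.zero_mem)
  rwa [map_zero, map_zero] at this

include hK in
lemma Cg.one : Cg hR (1 : F) (1 : M) := by
  have := Cg.alg hR hK (a := 1) (by rw [map_one]; exact V.one_mem)
  rwa [map_one, map_one] at this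

include hK in
/-- the lift is multiplicative modulo the maximal ideal -/
lemma u_mul_lt (hx : W.valuation x ≤ 1) (hx' : W.valuation x' ≤ 1) :
    V.valuation (u hR x * u hR x' - u hR (x * x')) < 1 := by
  by_cases h0 : x = 0
  · rw [h0, zero_mul, u_zero hR hK, zero_mul, sub_self, map_zero]
    exact zero_lt_one
  by_cases h0' : x' = 0
  · rw [h0', mul_zero, u_zero hR hK, mul_zero, sub_self, map_zero]
    exact zero_lt_one
  refine lt_of_lt_of_le (u_mul hR hK h0 h0') ?_
  rw [map_mul]
  exact mul_le_one' ((nu_le_one hR hK).1 hx) ((nu_le_one hR hK).1 hx')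

include hK in
lemma Cg.mul (h : Cg hR w x) (h' : Cg hR w' x') : Cg hR (w * w') (x * x') := by
  refine ⟨by rw [map_mul]; exact mul_le_one' h.1 h'.1,
    by rw [map_mul]; exact mul_le_one' h.2.1 h'.2.1, ?_⟩
  have h1 := u_mul_lt hR hK h.2.1 h'.2.1
  rw [show w * w' - u hR (x * x') = ((w - u hR x) * w' + u hR x * (w' - u hR x')) +
    (u hR x * u hR x' - u hR (x * x')) by ring]
  refine lt_of_le_of_lt (V.valuation.map_add _ _) (max_lt ?_ h1)
  refine lt_of_le_of_lt (V.valuation.map_add _ _) (max_lt ?_ ?_)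
  · rw [map_mul]
    exact lt_of_le_of_lt (mul_le_of_le_one_right' h'.1) h.2.2
  · rw [map_mul]
    exact lt_of_le_of_lt (mul_le_of_le_one_left' (h.u_le hR hK)) h'.2.2

include hK in
lemma Cg.pow (h : Cg hR w x) (k : ℕ) : Cg hR (w ^ k) (x ^ k) := by
  induction k with
  | zero => rw [pow_zero, pow_zero]; exact Cg.one hR hK
  | succ k ih => rw [pow_succ, pow_succ]; exact ih.mul hR hK h

include hK in
lemma Cg.sum {ι : Type} (s : Finset ι) (f : ι → F) (g : ι → M) (h : ∀ i ∈ s, Cg hR (f i) (g i)) :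
    Cg hR (∑ i ∈ s, f i) (∑ i ∈ s, g i) := by
  classical
  induction s using Finset.induction_on with
  | empty => rw [Finset.sum_empty, Finset.sum_empty]; exact Cg.zero hR hK
  | insert a s ha ih =>
    rw [Finset.sum_insert ha, Finset.sum_insert ha]
    exact (h a (Finset.mem_insert_self _ _)).add hR
      (ih fun i hi => h i (Finset.mem_insert_of_mem hi))

include hK in
lemma Cg.lt_iff (h : Cg hR w x) : V.valuation w < 1 ↔ W.valuation x < 1 := by
  rw [nu_lt_one hR hK, nu_apply]
  constructor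
  · intro h1
    rw [show u hR x = w - (w - u hR x) by ring]
    exact lt_of_le_of_lt (V.valuation.map_sub _ _) (max_lt h1 h.2.2)
  · intro h1
    rw [show w = (w - u hR x) + u hR x by ring]
    exact lt_of_le_of_lt (V.valuation.map_add _ _) (max_lt h.2.2 h1)

include hK in
lemma Cg.div (h : Cg hR w x) (h' : Cg hR w' x') (h1 : V.valuation w' = 1) :
    W.valuation x' = 1 ∧ Cg hR (w * w'⁻¹) (x * x'⁻¹) := by
  have h2 : W.valuation x' = 1 := by
    refine le_antisymm h'.2.1 (not_lt.1 fun h3 => ?_)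
    rw [← h'.lt_iff hR hK, h1] at h3
    exact lt_irrefl _ h3
  have hx0 : x' ≠ 0 := by
    rintro rfl
    rw [map_zero] at h2
    exact zero_ne_one h2
  have hw0 : w' ≠ 0 := by
    rintro rfl
    rw [map_zero] at h1
    exact zero_ne_one h1
  have h3 : W.valuation (x * x'⁻¹) ≤ 1 := by
    rw [map_mul, map_inv₀, h2, inv_one, mul_one]
    exact h.2.1
  refine ⟨h2, ?_, h3, ?_⟩
  · rw [map_mul, map_inv₀, h1, inv_one, mul_one]
    exact h.1
  · have h4 := u_mul_lt hR hK h3 h2.le
    rw [inv_mul_cancel_right₀ hx0] at h4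
    have h5 : w * w'⁻¹ - u hR (x * x'⁻¹) = (w - u hR (x * x'⁻¹) * w') * w'⁻¹ := by
      rw [sub_mul, mul_inv_cancel_right₀ hw0]
    rw [h5, map_mul, map_inv₀, h1, inv_one, mul_one]
    rw [show w - u hR (x * x'⁻¹) * w' = ((w - u hR x) - u hR (x * x'⁻¹) * (w' - u hR x')) -
      (u hR (x * x'⁻¹) * u hR x' - u hR x) by ring]
    refine lt_of_le_of_lt (V.valuation.map_sub _ _) (max_lt ?_ h4)
    refine lt_of_le_of_lt (V.valuation.map_sub _ _) (max_lt h.2.2 ?_)
    rw [map_mul]
    exact lt_of_le_of_lt (mul_le_of_le_one_left' ((nu_le_one hR hK).1 h3)) h'.2.2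

include hK in
/-- elements of the subring generated by the lifts have residues -/
lemma cg_lo (B : Set F) (B' : Set M)
    (hB : ∀ z ∈ B, ∃ x ∈ B', Cg hR z x)
    {w : F} (hw : w ∈ lo V.toSubring (Subring.closure
      (((V.comap (algebraMap E F)).toSubring.map (algebraMap E F) : Set F) ∪ B))) :
    ∃ x ∈ lo W.toSubring (Subring.closure
      (((W.comap (algebraMap E M)).toSubring.map (algebraMap E M) : Set M) ∪ B')),
      Cg hR w x := by
  have hcl : ∀ z ∈ Subring.closure
      (((V.comap (algebraMap E F)).toSubring.map (algebraMap E F) : Set F) ∪ B),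
      ∃ x ∈ Subring.closure
        (((W.comap (algebraMap E M)).toSubring.map (algebraMap E M) : Set M) ∪ B'),
        Cg hR z x := by
    intro z hz
    induction hz using Subring.closure_induction with
    | mem z hz =>
      rcases hz with ⟨a, ha, rfl⟩ | hz
      · refine ⟨algebraMap E M a, Subring.subset_closure (Or.inl ⟨a, ?_, rfl⟩),
          Cg.alg hR hK ha⟩
        rw [hR.comap]
        exact ha
      · obtain ⟨x, hx, h⟩ := hB z hz
        exact ⟨x, Subring.subset_closure (Or.inr hx), h⟩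
    | zero => exact ⟨0, Subring.zero_mem _, Cg.zero hR hK⟩
    | one => exact ⟨1, Subring.one_mem _, Cg.one hR hK⟩
    | add z z' _ _ h h' =>
      obtain ⟨x, hx, h⟩ := h
      obtain ⟨x', hx', h'⟩ := h'
      exact ⟨x + x', Subring.add_mem _ hx hx', h.add hR h'⟩
    | neg z _ h =>
      obtain ⟨x, hx, h⟩ := h
      exact ⟨-x, Subring.neg_mem _ hx, h.neg hR⟩
    | mul z z' _ _ h h' =>
      obtain ⟨x, hx, h⟩ := h
      obtain ⟨x', hx', h'⟩ := h'
      exact ⟨x * x', Subring.mul_mem _ hx hx', h.mul hR hK h'⟩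
  obtain ⟨a, ha, c, hc, hc0, hcV, rfl⟩ := hw
  obtain ⟨x, hx, h⟩ := hcl a ha
  obtain ⟨y, hy, h'⟩ := hcl c hc
  have h1 : V.valuation c = 1 := by
    refine le_antisymm h'.1 ?_
    have h2 : V.valuation c⁻¹ ≤ 1 := (V.valuation_le_one_iff _).2 hcV
    rw [map_inv₀] at h2
    have h3 : V.valuation c ≠ 0 := (V.valuation.ne_zero_iff).2 hc0
    exact (inv_le_one₀ (zero_lt_iff.2 h3)).1 h2
  obtain ⟨h2, h3⟩ := h.div hR hK h' h1
  have hy0 : y ≠ 0 := by
    rintro rfl
    rw [map_zero] at h2
    exact zero_ne_one h2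
  refine ⟨x * y⁻¹, ⟨x, hx, y, hy, hy0, ?_, rfl⟩, h3⟩
  change y⁻¹ ∈ W
  rw [← W.valuation_le_one_iff, map_inv₀, h2, inv_one]

end lift

theorem liftA : S2_A.{u} := by
  intro E F _ _ _ V θ ϕ n β hθ hK M _ _ W π q r t ee b ff tt bb zz hL
  have hR := hL.rsd
  have hut : ∀ i, u hR (t i) = aeval θ (tt i) := fun i => u_of hR (hL.td i) (hL.tπ i)
  have hub : ∀ j, u hR (b j) = aeval θ (bb j) := fun j => u_of hR (hL.bd j) (hL.bπ j)
  have hnt : ∀ i, nu hR hK (t i) = V.valuation (aeval θ (tt i)) := fun i => by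
    rw [nu_apply, hut]
  have hnb : ∀ j, nu hR hK (b j) = 1 := fun j => (nu_eq_one hR hK).1 (hL.str.b1 j)
  have ht0 : ∀ i, aeval θ (tt i) ≠ 0 := fun i => by
    rw [← hut]
    exact u_ne hR hθ (hL.str.t0 i)
  refine ⟨ht0, fun j => ?_, fun p => ?_, fun i k a m ha => ?_, fun j w hw hlt k => ?_⟩
  · rw [← hub, ← nu_apply hR hK]
    exact hnb j
  · have h1 : V.valuation (aeval θ (zz p)) = ∏ i, V.valuation (aeval θ (tt i)) ^ (p.1 i : ℕ) := by
      rw [← u_of hR (hL.zd p) (hL.zπ p), ← nu_apply hR hK, map_mul, map_prod, map_prod]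
      have h2 : ∏ j, nu hR hK (b j ^ (p.2 j : ℕ)) = 1 :=
        Finset.prod_eq_one fun j _ => by rw [map_pow, hnb, one_pow]
      rw [h2, mul_one]
      exact Finset.prod_congr rfl fun i _ => by rw [map_pow, hnt]
    have h3 : ∏ i, V.valuation (aeval θ (tt i)) ^ (p.1 i : ℕ) ≠ 0 :=
      Finset.prod_ne_zero_iff.2 fun i _ => pow_ne_zero _ ((V.valuation.ne_zero_iff).2 (ht0 i))
    rw [zf, map_mul, map_inv₀, h1, map_prod]
    simp only [map_pow]
    exact mul_inv_cancel₀ h3
  · rw [nu_eq hR hK]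
    have h1 : nu hR hK (t i ^ k) = V.valuation (aeval θ (tt i) ^ k) := by
      rw [map_zpow₀, map_zpow₀, hnt]
    have h2 : nu hR hK (algebraMap E M a * mo t m) =
        V.valuation (algebraMap E F a * mo (fun i => aeval θ (tt i)) m) := by
      rw [map_mul, map_mul, nu_alg, mo, mo, map_prod, map_prod]
      congr 1
      exact Finset.prod_congr rfl fun i _ => by rw [map_zpow₀, map_zpow₀, hnt]
    rw [h1, h2]
  · have hb : ∀ j, Cg hR (aeval θ (bb j)) (b j) := fun j => by
      refine ⟨?_, (hL.str.b1 j).le, ?_⟩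
      · rw [← hub, ← nu_apply hR hK, hnb]
      · rw [hub, sub_self, map_zero]
        exact zero_lt_one
    have h1 := fun k => cg_lo hR hK {z | ∃ l : Fin r, (l : ℕ) < (j : ℕ) ∧ aeval θ (bb l) = z}
      {z | ∃ l : Fin r, (l : ℕ) < (j : ℕ) ∧ b l = z} (by
        rintro z ⟨l, hl, rfl⟩
        exact ⟨b l, ⟨l, hl, rfl⟩, hb l⟩) (hw k)
    choose x hx hwx using h1
    have h2 : Cg hR (∑ k, w k * aeval θ (bb j) ^ (k : ℕ)) (∑ k, x k * b j ^ (k : ℕ)) :=
      Cg.sum hR hK _ _ _ fun k _ => (hwx k).mul hR hK ((hb j).pow hR hK _)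
    have h3 := (h2.lt_iff hR hK).1 hlt
    have h4 := bmin hL.str j x hx h3 k
    exact ((hwx k).lt_iff hR hK).2 h4

end Pool.Agent.H297.DT2
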